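import Pool.Agent.Helper25_CON.Stmts

set_option autoImplicit false

/-!
# Squad CON, module A_CNG
-/

noncomputable section

namespace Pool.Agent.CON.H39

open Pool.Agent.H25Cong Pool.Agent.CON

theorem inv_mod {n : ℕ} {L : Submodule ℤ (V n)} {N : ℕ} {g : V n ≃ₗ[ℝ] V n} (hg : g ∈ OLat L)
    (h : IsOneMod L N g) : IsOneMod L N g⁻¹ := by
  intro y hy
  have hz : g⁻¹ y ∈ L := ((IsAut.inv hg).2 y).2 hy
  obtain ⟨l, hl, e⟩ := h _ hz
  refine ⟨-l, L.neg_mem hl, ?_⟩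
  rw [ap_inv] at e
  rw [smul_neg, ← e]
  abel

theorem key {n : ℕ} {Λ L : Submodule ℤ (V n)} {N D : ℕ} {t : ℝ} (ht : 0 < t) (hD : 0 < D)
    (h1 : ∀ x ∈ Λ, ((D : ℝ) * t) • x ∈ L) (h2 : ∀ x ∈ L, ∃ y ∈ Λ, (D : ℝ) • x = t • y)
    {g : V n ≃ₗ[ℝ] V n} (hmod : IsOneMod L (D ^ 2 * N) g) :
    ∀ x ∈ Λ, ∃ m ∈ Λ, g x - x = (N : ℝ) • m := by
  intro x hx
  obtain ⟨l, hl, e⟩ := hmod _ (h1 x hx)
  obtain ⟨m, hm, e2⟩ := h2 l hl
  refine ⟨m, hm, ?_⟩
  have hD' : (0 : ℝ) < D := by exact_mod_cast hD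
  have hne : (D : ℝ) * t ≠ 0 := (mul_pos hD' ht).ne'
  have e3 : ((D : ℝ) * t) • (g x - x) = ((D : ℝ) * t) • ((N : ℝ) • m) := by
    rw [smul_sub, ← map_smul, e]
    calc ((D ^ 2 * N : ℕ) : ℝ) • l = ((D : ℝ) * N) • ((D : ℝ) • l) := by
          rw [smul_smul]
          congr 1
          push_cast
          ring
      _ = ((D : ℝ) * N) • (t • m) := by rw [e2]
      _ = _ := by
        rw [smul_smul, smul_smul]
        congr 1
        ring
  exact smul_right_injective _ hne e3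

theorem a_CNG (href : A_REF) : A_CNG := by
  intro n Γ Λ L N hGen hN hCong hL hInv hCsc
  obtain ⟨t, D, ht, hD, h1, h2⟩ := hCsc
  have hle : Γ ≤ WL L := by
    rw [hGen, Subgroup.closure_le]
    rintro g ⟨hg, hr⟩
    obtain ⟨a, ha, rfl⟩ := href n L g hL hr (hInv g hg)
    exact Subgroup.subset_closure ⟨a, ha, rfl⟩
  refine ⟨D ^ 2 * N, by positivity, fun g hg hmod => ?_⟩
  have hcast : ∀ m ∈ Λ, (N : ℝ) • m ∈ Λ := by
    intro m hm
    have : (N : ℝ) • m = (N : ℤ) • m := by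
      rw [← Int.cast_smul_eq_zsmul ℝ]
      norm_cast
    rw [this]
    exact Λ.smul_mem _ hm
  have k1 := key ht hD h1 h2 hmod
  have k2 := key ht hD h1 h2 (inv_mod hg hmod)
  have hgΛ : g ∈ OLat Λ := by
    refine ⟨hg.1, fun x => ⟨fun hx => ?_, fun hx => ?_⟩⟩
    · obtain ⟨m, hm, e⟩ := k2 _ hx
      rw [inv_ap] at e
      have : x = g x + (N : ℝ) • m := by rw [← e]; abel
      rw [this]
      exact Λ.add_mem hx (hcast m hm)
    · obtain ⟨m, hm, e⟩ := k1 _ hx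
      have : g x = x + (N : ℝ) • m := by rw [← e]; abel
      rw [this]
      exact Λ.add_mem hx (hcast m hm)
  obtain ⟨h, hh, hs⟩ := hCong g hgΛ k1
  exact ⟨h, hle hh, hs⟩

end Pool.Agent.CON.H39

end
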