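import Pool.Agent.Helper25_CON.PDLem

set_option autoImplicit false

/-!
# Squad CON, module E_RNK
-/

noncomputable section

namespace Pool.Agent.CON.H39

open Pool.Agent.H25Cong Pool.Agent.CON

/-- The embedding of `M` into a rational vector space. -/
def emb {M : Type} [AddCommGroup M] {b : M → M → ℤ} (hb : PD b) : M →ₗ[ℤ] (M → ℚ) where
  toFun m := fun y => (b m y : ℚ)
  map_add' x y := by
    funext z
    simp [hb.add_left]
  map_smul' c x := by
    funext z
    show ((b (c • x) z : ℤ) : ℚ) = (c • (fun y => ((b x y : ℤ) : ℚ))) z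
    rw [hb.zsmul_left]
    simp

theorem emb_inj {M : Type} [AddCommGroup M] {b : M → M → ℤ} (hb : PD b) :
    Function.Injective (emb hb) := by
  intro x y h
  by_contra hne
  have h1 : x - y ≠ 0 := sub_ne_zero.2 hne
  have h2 := hb.pos _ h1
  have h3 : ∀ z, b x z = b y z := by
    intro z
    have : ((b x z : ℤ) : ℚ) = ((b y z : ℤ) : ℚ) := congrFun h z
    exact_mod_cast this
  rw [hb.sub_left, h3, sub_self] at h2
  exact lt_irrefl _ h2

theorem li_iff {M : Type} [AddCommGroup M] {b : M → M → ℤ} (hb : PD b) {ι : Type} (c : ι → M) :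
    LinearIndependent ℤ c ↔ LinearIndependent ℚ (fun i => emb hb (c i)) := by
  rw [← LinearIndependent.iff_fractionRing ℤ ℚ]
  exact (LinearMap.linearIndependent_iff (emb hb) (LinearMap.ker_eq_bot.2 (emb_inj hb))).symm

theorem e_RNK : E_RNK := by
  classical
  intro M _ _ b k d C s r hb hC hd
  obtain ⟨c, hc⟩ := hd
  let f : M →ₗ[ℤ] (M → ℚ) := emb hb
  -- bases of the components
  have h1 : ∀ i : Fin k, ∃ T : Finset (M → ℚ), T.card ≤ r i ∧
      ∀ x ∈ C i, f x ∈ Submodule.span ℚ (T : Set (M → ℚ)) := by
    intro i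
    obtain ⟨T, hT1, hT2, hT3⟩ := exists_linearIndependent ℚ (f '' C i)
    have hcard : ∀ U : Finset (M → ℚ), (U : Set (M → ℚ)) ⊆ T → U.card ≤ r i := by
      intro U hU
      by_contra hlt
      push Not at hlt
      obtain ⟨W, hW, hWc⟩ := Finset.exists_subset_card_eq (Nat.succ_le_of_lt hlt)
      let e : Fin (r i + 1) ≃ W := (Finset.equivFinOfCardEq hWc).symm
      have hx : ∀ a : Fin (r i + 1), ∃ x ∈ C i, f x = (e a : M → ℚ) := by
        intro a
        exact hT1 (hU (hW (e a).2))
      choose x hx1 hx2 using hx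
      apply hC.rk' i
      refine ⟨x, hx1, ?_⟩
      rw [li_iff hb]
      have h3 : (fun a => emb hb (x a)) = fun a => (e a : M → ℚ) := funext hx2
      rw [h3]
      have h4 := hT3.comp (fun a : Fin (r i + 1) => (⟨(e a : M → ℚ), hU (hW (e a).2)⟩ : T)) (by
        intro a a' h
        have := congrArg Subtype.val h
        exact e.injective (Subtype.ext this))
      exact h4
    have hfin : T.Finite := by
      by_contra hinf
      obtain ⟨U, hU, hUc⟩ := (show T.Infinite from hinf).exists_subset_card_eq (r i + 1)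
      have := hcard U hU
      omega
    refine ⟨hfin.toFinset, hcard _ (by rw [Set.Finite.coe_toFinset]), fun x hx => ?_⟩
    rw [Set.Finite.coe_toFinset, hT2]
    exact Submodule.subset_span ⟨x, hx, rfl⟩
  choose T hT1 hT2 using h1
  let U : Finset (M → ℚ) := Finset.univ.biUnion T
  have hU : U.card ≤ ∑ i, r i := Finset.card_biUnion_le.trans (Finset.sum_le_sum fun i _ => hT1 i)
  have hspan : ∀ x : M, f x ∈ Submodule.span ℚ (U : Set (M → ℚ)) := by
    intro x
    have hx := hC.gen x
    induction hx using AddSubgroup.closure_induction with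
    | mem x hx =>
      obtain ⟨i, hi⟩ := Set.mem_iUnion.1 hx
      refine Submodule.span_mono ?_ (hT2 i x hi)
      intro y hy
      exact Finset.mem_coe.2 (Finset.mem_biUnion.2 ⟨i, Finset.mem_univ _, Finset.mem_coe.1 hy⟩)
    | zero => rw [map_zero]; exact Submodule.zero_mem _
    | add x y _ _ hx hy => rw [map_add]; exact Submodule.add_mem _ hx hy
    | neg x _ hx => rw [map_neg]; exact Submodule.neg_mem _ hx
  have h2 := (li_iff hb c).1 hc
  let g : Fin d → Submodule.span ℚ (U : Set (M → ℚ)) := fun i => ⟨f (c i), hspan _⟩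
  have h3 : LinearIndependent ℚ g := by
    apply LinearIndependent.of_comp (Submodule.subtype _)
    exact h2
  have hfd : Module.Finite ℚ (Submodule.span ℚ (U : Set (M → ℚ))) :=
    FiniteDimensional.span_finset ℚ U
  have h4 := h3.fintype_card_le_finrank
  rw [Fintype.card_fin] at h4
  exact (h4.trans (finrank_span_finset_le_card U)).trans hU

end Pool.Agent.CON.H39

end
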